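import Pool.Agent.Y996.NL.Stm

/-!
# Project NL (MP_35f495_pr), job NL-IN: independence of the two boxes
-/

set_option autoImplicit false

namespace Pool.Agent.Z864.NL

open H974 Finset Pool.Agent.W819.EN Pool.Agent.W819.NC Pool.Agent.Y996.NL

lemma loc_mono {X : Finset Edg → ℕ} {T C : Finset Edg} (h : ∀ F, X F = X (F ∩ T))
    (hTC : T ⊆ C) (F : Finset Edg) : X F = X (F ∩ C) := by
  rw [h F, h (F ∩ C)]
  congr 1
  ext x
  simp only [mem_inter]
  constructor
  · rintro ⟨h1, h2⟩
    exact ⟨⟨h1, hTC h2⟩, h2⟩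
  · rintro ⟨⟨h1, -⟩, h2⟩
    exact ⟨h1, h2⟩

/-- job NL-IN -/
theorem ind : S_IN := by
  intro N hgeo hloc t v w r r' R S T Y hr hr' hA hB hd hY
  have e1 : Ex P2 S (fun F => t ^ N F v r R * t ^ N F w r' R * Y F) =
      Ex P2 S (fun F => (fun F => t ^ N F v r R * Y F) F * (fun F => t ^ N F w r' R) F) :=
    Ex_congr fun F _ => by ring
  rw [e1, Ex_mul_indep (p := P2) (S := bx v R ∪ T) (T := bx w R)
    (f := fun F => t ^ N F v r R * Y F) (g := fun F => t ^ N F w r' R) hA hB hd ?_ ?_]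
  · rw [hloc t w r' R S hr' hB]
  · intro F hF
    have h1 : N F v r R = N (F ∩ (bx v R ∪ T)) v r R :=
      loc_mono (X := fun F => N F v r R) (T := an v r R) (fun F => hgeo.loc F v r R hr)
        (Subset.trans (by unfold an; exact sdiff_subset) subset_union_left) F
    have h2 : Y F = Y (F ∩ (bx v R ∪ T)) := by
      rw [hY F hF, hY (F ∩ (bx v R ∪ T)) (inter_subset_left.trans hF)]
      congr 1
      ext x
      simp only [mem_inter, mem_union]
      tauto
    show t ^ N F v r R * Y F = t ^ N (F ∩ (bx v R ∪ T)) v r R * Y (F ∩ (bx v R ∪ T))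
    rw [← h1, ← h2]
  · intro F _
    have h1 : N F w r' R = N (F ∩ bx w R) w r' R :=
      loc_mono (X := fun F => N F w r' R) (T := an w r' R) (fun F => hgeo.loc F w r' R hr')
        (by unfold an; exact sdiff_subset) F
    show t ^ N F w r' R = t ^ N (F ∩ bx w R) w r' R
    rw [← h1]

end Pool.Agent.Z864.NL
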